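import Pool.Agent.P.MP_944056_co.Defs

namespace Pool.Agent.P.MP_944056_co

open SimpleGraph

variable {V W : Type}

theorem contract_some_some (G : SimpleGraph V) (x y : V) (u v : {v : V // v ≠ x ∧ v ≠ y}) :
    (contract G x y).Adj (some u) (some v) ↔ G.Adj u.1 v.1 := by
  simp only [contract, fromRel_adj]
  constructor
  · rintro ⟨-, (⟨u', v', h1, h2, h⟩ | ⟨v', h1, -⟩) | (⟨u', v', h1, h2, h⟩ | ⟨v', h1, -⟩)⟩
    · cases h1; cases h2; exact h
    · cases h1
    · cases h1; cases h2; exact h.symm
    · cases h1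
  · intro h
    refine ⟨?_, Or.inl (Or.inl ⟨u, v, rfl, rfl, h⟩)⟩
    intro e
    cases e
    exact G.irrefl h

theorem contract_none_some (G : SimpleGraph V) (x y : V) (v : {v : V // v ≠ x ∧ v ≠ y}) :
    (contract G x y).Adj none (some v) ↔ (G.Adj x v.1 ∨ G.Adj y v.1) := by
  simp only [contract, fromRel_adj]
  constructor
  · rintro ⟨-, (⟨u', v', h1, h2, h⟩ | ⟨v', -, h2, h⟩) | (⟨u', v', h1, h2, h⟩ | ⟨v', h1, -⟩)⟩
    · cases h1
    · cases h2; exact h
    · cases h2
    · cases h1
  · intro h
    exact ⟨by simp, Or.inl (Or.inr ⟨v, trivial, rfl, h⟩)⟩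

theorem contract_some_none (G : SimpleGraph V) (x y : V) (v : {v : V // v ≠ x ∧ v ≠ y}) :
    (contract G x y).Adj (some v) none ↔ (G.Adj x v.1 ∨ G.Adj y v.1) := by
  rw [adj_comm, contract_none_some]

theorem EvenPair.of_iso {G : SimpleGraph V} {H : SimpleGraph W} (e : G ≃g H) {x y : V}
    (h : EvenPair G x y) : EvenPair H (e x) (e y) := by
  obtain ⟨h1, h2, h3⟩ := h
  refine ⟨fun h => h1 (e.injective h), fun h => h2 (e.map_adj_iff.1 h), ?_⟩
  intro p hp hc
  let q : G.Walk x y := (p.map e.symm.toHom).copy (by simp) (by simp)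
  have hl : q.length = p.length := by simp [q]
  have hq : q.IsPath := by
    simp only [q, Walk.isPath_copy]
    exact hp.map e.symm.injective
  have := h3 q hq (by
    intro i j hij hj
    rw [hl] at hj
    simp only [q, Walk.getVert_copy, Walk.getVert_map]
    intro h
    exact hc i j hij hj (e.symm.map_adj_iff.1 h))
  rwa [hl] at this

/-- contraction commutes with isomorphisms -/
def contractIso {G : SimpleGraph V} {H : SimpleGraph W} (e : G ≃g H) (x y : V) :
    contract G x y ≃g contract H (e x) (e y) where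
  toEquiv := Equiv.optionCongr (e.toEquiv.subtypeEquiv (by
    intro a
    constructor
    · rintro ⟨h1, h2⟩
      exact ⟨fun h => h1 (e.injective h), fun h => h2 (e.injective h)⟩
    · rintro ⟨h1, h2⟩
      exact ⟨fun h => h1 (congrArg e h), fun h => h2 (congrArg e h)⟩))
  map_rel_iff' := by
    rintro (_ | a) (_ | b)
    · simp
    · simp only [Equiv.optionCongr_apply, Option.map_none, Option.map_some, contract_none_some]
      exact or_congr e.map_adj_iff e.map_adj_iff
    · simp only [Equiv.optionCongr_apply, Option.map_none, Option.map_some, contract_some_none]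
      exact or_congr e.map_adj_iff e.map_adj_iff
    · simp only [Equiv.optionCongr_apply, Option.map_some, contract_some_some]
      exact e.map_adj_iff

theorem Contractile.of_iso {V : Type} {G : SimpleGraph V} (h : Contractile V G) :
    ∀ {W : Type} {H : SimpleGraph W}, (G ≃g H) → Contractile W H := by
  induction h with
  | clique V G hG =>
    intro W H e
    refine Contractile.clique W H ?_
    ext a b
    obtain ⟨a, rfl⟩ := e.surjective a
    obtain ⟨b, rfl⟩ := e.surjective b
    rw [e.map_adj_iff]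
    subst hG
    simp
  | step V G x y hp _ ih =>
    intro W H e
    exact Contractile.step W H (e x) (e y) (hp.of_iso e) (ih (contractIso e x y))

theorem Contractile.inv {V : Type} {G : SimpleGraph V} (h : Contractile V G) :
    G = ⊤ ∨ ∃ x y, EvenPair G x y := by
  cases h with
  | clique _ _ h => exact Or.inl h
  | step _ _ x y h _ => exact Or.inr ⟨x, y, h⟩

/-- the abstract reduction -/
theorem exists_minimal (G : SimpleGraph V) (S0 : Set V) (hfin : S0.Finite)
    (h0 : ¬ Contractile S0 (G.induce S0))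
    (h1 : ∀ S : Set V, S ⊆ S0 → HasStarCutset (G.induce S) ∨ Contractile S (G.induce S)) :
    ∃ (W : Type) (_ : Finite W) (H : SimpleGraph W), ¬ PerfectlyContractile H ∧
      (∀ S : Set W, S ≠ Set.univ → PerfectlyContractile (H.induce S)) ∧ HasStarCutset H := by
  have hex : ∃ n, ∃ S : Set V, S ⊆ S0 ∧ ¬ Contractile S (G.induce S) ∧ S.ncard = n :=
    ⟨_, S0, subset_rfl, h0, rfl⟩
  classical
  obtain ⟨S, hS, hS1, hS2⟩ := Nat.find_spec hex
  have hSf : S.Finite := hfin.subset hS
  refine ⟨S, hSf.to_subtype, G.induce S, ?_, ?_, ?_⟩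
  · intro h
    exact hS1 ((h Set.univ).of_iso (induceUnivIso _))
  · intro T hT T'
    let f : ((G.induce S).induce T).induce T' ↪g G :=
      (Embedding.induce S).comp ((Embedding.induce T).comp (Embedding.induce T'))
    have hsub : Set.range f ⊆ S := by
      rintro _ ⟨a, rfl⟩
      exact a.1.1.2
    have hne : Set.range f ≠ S := by
      intro he
      apply hT
      rw [Set.eq_univ_iff_forall]
      intro a
      have : a.1 ∈ Set.range f := by rw [he]; exact a.2
      obtain ⟨b, hb⟩ := this
      have : b.1.1 = a := Subtype.ext hb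
      rw [← this]
      exact b.1.2
    have hlt : (Set.range f).ncard < S.ncard :=
      Set.ncard_lt_ncard (ssubset_of_subset_of_ne hsub hne) hSf
    have hc : Contractile _ (G.induce (Set.range f)) := by
      by_contra hc
      exact Nat.find_min hex (hS2 ▸ hlt) ⟨_, hsub.trans hS, hc, rfl⟩
    exact hc.of_iso f.isoInduceRange.symm
  · exact (h1 S hS).resolve_right hS1

/-- a walk along a sequence -/
theorem exists_walk (G : SimpleGraph V) (f : ℕ → V) (k : ℕ)
    (h : ∀ i, i < k → G.Adj (f i) (f (i + 1))) :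
    ∃ p : G.Walk (f 0) (f k), p.length = k ∧ ∀ i, i ≤ k → p.getVert i = f i := by
  induction k generalizing f with
  | zero =>
    refine ⟨Walk.nil, rfl, ?_⟩
    intro i hi
    obtain rfl : i = 0 := by omega
    rfl
  | succ k ih =>
    obtain ⟨p, hp, hq⟩ := ih (fun i => f (i + 1)) (fun i hi => h (i + 1) (by omega))
    refine ⟨Walk.cons (h 0 (by omega)) p, by simp [hp], ?_⟩
    rintro (_ | i) hi
    · rfl
    · rw [Walk.getVert_cons_succ]
      exact hq i (by omega)

theorem not_evenPair (G : SimpleGraph V) (f : ℕ → V) (k : ℕ) (hk : ¬ Even k)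
    (h : ∀ i, i < k → G.Adj (f i) (f (i + 1)))
    (h2 : ∀ i j, i + 1 < j → j ≤ k → f i ≠ f j ∧ ¬ G.Adj (f i) (f j)) :
    ¬ EvenPair G (f 0) (f k) := by
  obtain ⟨p, hp, hq⟩ := exists_walk G f k h
  rintro ⟨-, -, h3⟩
  apply hk
  rw [← hp]
  apply h3 p
  · rw [← Walk.IsPath.getVert_injOn_iff]
    have key : ∀ i j, i < j → j ≤ k → f i ≠ f j := by
      intro i j hij hj
      by_cases e : j = i + 1
      · subst e
        exact (h i (by omega)).ne
      · exact (h2 i j (by omega) hj).1
    intro i hi j hj e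
    simp only [Set.mem_ofPred_eq, hp] at hi hj
    rw [hq i hi, hq j hj] at e
    rcases lt_trichotomy i j with l | l | l
    · exact absurd e (key i j l hj)
    · exact l
    · exact absurd e.symm (key j i l hi)
  · intro i j hij hj
    rw [hp] at hj
    rw [hq i (by omega), hq j hj]
    exact (h2 i j hij hj).2

theorem EvenPair.symm {G : SimpleGraph V} {x y : V} (h : EvenPair G x y) : EvenPair G y x := by
  obtain ⟨h1, h2, h3⟩ := h
  refine ⟨h1.symm, fun h => h2 h.symm, ?_⟩
  intro p hp hc
  have := h3 p.reverse hp.reverse (by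
    intro i j hij hj
    rw [Walk.length_reverse] at hj
    rw [Walk.getVert_reverse, Walk.getVert_reverse]
    intro h
    exact hc (p.length - j) (p.length - i) (by omega) (by omega) h.symm)
  rwa [Walk.length_reverse] at this

/-- parity certificate for an even pair -/
theorem evenPair_of_cert (G : SimpleGraph V) (x y : V) (hxy : x ≠ y) (hn : ¬ G.Adj x y)
    (P Q : V → Prop) (hx : P x) (hy : ¬ Q y)
    (hP : ∀ u v, P u → G.Adj u v → ¬ (G.Adj x v ∧ G.Adj y v) → ¬ (G.Adj x u ∧ G.Adj x v) →
      ¬ (G.Adj y u ∧ G.Adj y v) → Q v)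
    (hQ : ∀ u v, Q u → G.Adj u v → ¬ (G.Adj x v ∧ G.Adj y v) → ¬ (G.Adj x u ∧ G.Adj x v) →
      ¬ (G.Adj y u ∧ G.Adj y v) → P v) : EvenPair G x y := by
  refine ⟨hxy, hn, ?_⟩
  intro p _ hc
  have hx1 : ∀ j, j ≤ p.length → G.Adj x (p.getVert j) → j = 1 := by
    intro j hj h
    by_contra e
    rcases Nat.eq_zero_or_pos j with rfl | l
    · rw [Walk.getVert_zero] at h
      exact G.irrefl h
    · exact hc 0 j (by omega) hj (by rwa [Walk.getVert_zero])
  have hy1 : ∀ j, j ≤ p.length → G.Adj y (p.getVert j) → j + 1 = p.length := by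
    intro j hj h
    by_contra e
    rcases Nat.lt_or_ge j p.length with l | l
    · exact hc j p.length (by omega) le_rfl (by rw [Walk.getVert_length]; exact h.symm)
    · rw [Walk.getVert_of_length_le _ l] at h
      exact G.irrefl h
  by_cases h2 : p.length = 2
  · rw [h2]; decide
  have inv : ∀ i, i ≤ p.length → (Even i → P (p.getVert i)) ∧ (¬ Even i → Q (p.getVert i)) := by
    intro i
    induction i with
    | zero =>
      intro _
      exact ⟨fun _ => by rwa [Walk.getVert_zero], fun h => absurd Even.zero h⟩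
    | succ i ih =>
      intro hi
      have ih := ih (by omega)
      have ha := p.adj_getVert_succ (i := i) (by omega)
      have c1 : ¬ (G.Adj x (p.getVert (i + 1)) ∧ G.Adj y (p.getVert (i + 1))) := by
        rintro ⟨a, b⟩
        have := hx1 _ hi a
        have := hy1 _ hi b
        omega
      have c2 : ¬ (G.Adj x (p.getVert i) ∧ G.Adj x (p.getVert (i + 1))) := by
        rintro ⟨a, b⟩
        have := hx1 _ (by omega) a
        have := hx1 _ hi b
        omega
      have c3 : ¬ (G.Adj y (p.getVert i) ∧ G.Adj y (p.getVert (i + 1))) := by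
        rintro ⟨a, b⟩
        have := hy1 _ (by omega) a
        have := hy1 _ hi b
        omega
      constructor
      · intro he
        exact hQ _ _ (ih.2 (Nat.even_add_one.1 he)) ha c1 c2 c3
      · intro he
        refine hP _ _ (ih.1 ?_) ha c1 c2 c3
        by_contra h
        exact he (Nat.even_add_one.2 h)
  by_contra h
  have := (inv p.length le_rfl).2 h
  rw [Walk.getVert_length] at this
  exact hy this

/-- separation certificate for a star cutset -/
theorem star_of_cert (G : SimpleGraph V) (s u v : V) (hu : u ≠ s) (hv : v ≠ s)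
    (C : V → Prop) (h1 : C u) (h2 : ¬ C v)
    (h3 : ∀ a b, C a → G.Adj a b → (b = u ∨ b = v ∨ (b ≠ s ∧ ¬ G.Adj s b)) → C b) :
    HasStarCutset G := by
  refine ⟨{w | ¬ (w = u ∨ w = v ∨ (w ≠ s ∧ ¬ G.Adj s w))}, ?_, s, ?_, ?_⟩
  · intro hc
    have key : ∀ (a b : ↥{z | z ∉ {w | ¬ (w = u ∨ w = v ∨ (w ≠ s ∧ ¬ G.Adj s w))}})
        (p : (G.induce _).Walk a b), C a.1 → C b.1 := by
      intro a b p
      induction p with
      | nil => exact id
      | cons h _ ih =>
        intro ha
        apply ih
        refine h3 _ _ ha h ?_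
        exact not_not.1 (Subtype.property (p := fun w =>
          w ∈ {z | z ∉ {w | ¬ (w = u ∨ w = v ∨ (w ≠ s ∧ ¬ G.Adj s w))}}) _)
    obtain ⟨p⟩ := hc ⟨u, by simp⟩ ⟨v, by simp⟩
    exact h2 (key _ _ p h1)
  · simp [hu.symm, hv.symm]
  · intro w hw hs
    by_contra h
    exact hw (Or.inr (Or.inr ⟨hs, h⟩))

end Pool.Agent.P.MP_944056_co
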