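import Pool.Agent.P.MP_944056_co.Basic

namespace Pool.Agent.P.MP_944056_co

open SimpleGraph

/-- graph given by bit rows -/
def gr (r : ℕ → ℕ) : SimpleGraph ℕ := SimpleGraph.fromRel fun u v => (r u).testBit v = true

/-- vertex set given by a bit mask -/
def vs (U : ℕ) : Set ℕ := {v | v < 24 ∧ U.testBit v = true}

/-- rows are symmetric and irreflexive below 24 -/
def Ok (r : ℕ → ℕ) : Prop :=
  (∀ u, u < 24 → (r u).testBit u = false) ∧
    ∀ u v, u < 24 → v < 24 → (r u).testBit v = (r v).testBit u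

theorem gr_adj {r : ℕ → ℕ} (h : Ok r) {u v : ℕ} (hu : u < 24) (hv : v < 24) :
    (gr r).Adj u v ↔ (r u).testBit v = true := by
  simp only [gr, fromRel_adj]
  constructor
  · rintro ⟨-, a | a⟩
    · exact a
    · rwa [h.2 u v hu hv]
  · intro a
    refine ⟨?_, Or.inl a⟩
    rintro rfl
    rw [h.1 u hu] at a
    cases a

/-- subset of masks -/
def sub (a b : ℕ) : Bool := Nat.beq (a &&& b) a

theorem sub_spec {a b : ℕ} (h : sub a b = true) {v : ℕ} (hv : a.testBit v = true) :
    b.testBit v = true := by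
  have h := Nat.eq_of_beq_eq_true h
  have : (a &&& b).testBit v = true := by rw [h]; exact hv
  rw [Nat.testBit_and] at this
  simp only [Bool.and_eq_true] at this
  exact this.2

/-- difference of masks -/
def dif (a b : ℕ) : ℕ := a ^^^ (a &&& b)

theorem dif_spec (a b v : ℕ) : (dif a b).testBit v = (a.testBit v && !b.testBit v) := by
  simp only [dif, Nat.testBit_xor, Nat.testBit_and]
  cases a.testBit v <;> cases b.testBit v <;> rfl

/-- for all `v < n` -/
def allLt (p : ℕ → Bool) : ℕ → Bool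
  | 0 => true
  | n + 1 => p n && allLt p n

theorem allLt_realize : True := by have := @allLt.eq_def; trivial

theorem allLt_spec {p : ℕ → Bool} {n : ℕ} (h : allLt p n = true) {v : ℕ} (hv : v < n) :
    p v = true := by
  induction n with
  | zero => omega
  | succ n ih =>
    simp only [allLt, Bool.and_eq_true] at h
    by_cases e : v = n
    · rw [e]; exact h.1
    · exact ih h.2 (by omega)

/-- rows after contracting `y` onto `x` -/
def crow (r : ℕ → ℕ) (x y : ℕ) (v : ℕ) : ℕ :=
  if Nat.beq v x then r x ||| r y else if (r v).testBit y then r v ||| 2 ^ x else r v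

theorem crow_self (r : ℕ → ℕ) (x y v : ℕ) :
    (crow r x y x).testBit v = ((r x).testBit v || (r y).testBit v) := by
  simp [crow, Nat.testBit_or]

theorem crow_ne (r : ℕ → ℕ) (x y u v : ℕ) (hu : u ≠ x) :
    (crow r x y u).testBit v = ((r u).testBit v || ((r u).testBit y && decide (x = v))) := by
  have : Nat.beq u x = false := by
    cases h : Nat.beq u x
    · rfl
    · exact absurd (Nat.eq_of_beq_eq_true h) hu
  simp only [crow, this]
  cases h : (r u).testBit y
  · simp
  · simp [Nat.testBit_or, Nat.testBit_two_pow]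

theorem crow_ok {r : ℕ → ℕ} (h : Ok r) {x y : ℕ} (hx : x < 24) (hy : y < 24)
    (hxy : (r x).testBit y = false) : Ok (crow r x y) := by
  constructor
  · intro u hu
    by_cases e : u = x
    · subst e
      rw [crow_self, h.1 u hu, h.2 y u hy hu, hxy]
      rfl
    · rw [crow_ne _ _ _ _ _ e, h.1 u hu]
      simp [Ne.symm e]
  · intro u v hu hv
    by_cases e : u = x
    · subst e
      by_cases e' : v = u
      · rw [e']
      · rw [crow_self, crow_ne _ _ _ _ _ e', h.2 u v hu hv, h.2 y v hy hv]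
        simp
    · by_cases e' : v = x
      · subst e'
        rw [crow_self, crow_ne _ _ _ _ _ e, h.2 u v hu hv, h.2 y u hy hu]
        simp
      · rw [crow_ne _ _ _ _ _ e, crow_ne _ _ _ _ _ e', h.2 u v hu hv]
        simp [Ne.symm e, Ne.symm e']

theorem mem_vs_dif {U y v : ℕ} : v ∈ vs (dif U (2 ^ y)) ↔ v ∈ vs U ∧ v ≠ y := by
  simp only [vs, Set.mem_ofPred_eq, dif_spec, Nat.testBit_two_pow, Bool.and_eq_true,
    Bool.not_eq_true', decide_eq_false_iff_not]
  constructor
  · rintro ⟨a, b, c⟩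
    exact ⟨⟨a, b⟩, fun h => c h.symm⟩
  · rintro ⟨⟨a, b⟩, c⟩
    exact ⟨a, b, fun h => c h.symm⟩

/-- the vertex map of a contraction -/
def cmap {U : ℕ} (x y : vs U) (hxy : x ≠ y) :
    Option {v : vs U // v ≠ x ∧ v ≠ y} → vs (dif U (2 ^ y.1))
  | none => ⟨x.1, mem_vs_dif.2 ⟨x.2, fun h => hxy (Subtype.ext h)⟩⟩
  | some v => ⟨v.1.1, mem_vs_dif.2 ⟨v.1.2, fun h => v.2.2 (Subtype.ext h)⟩⟩

theorem cmap_bij {U : ℕ} (x y : vs U) (hxy : x ≠ y) : Function.Bijective (cmap x y hxy) := by
  constructor
  · rintro (_ | a) (_ | b) h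
    · rfl
    · have : x.1 = b.1.1 := congrArg (fun z : vs (dif U (2 ^ y.1)) => z.1) h
      exact absurd (Subtype.ext this.symm) b.2.1
    · have : a.1.1 = x.1 := congrArg (fun z : vs (dif U (2 ^ y.1)) => z.1) h
      exact absurd (Subtype.ext this) a.2.1
    · have : a.1.1 = b.1.1 := congrArg (fun z : vs (dif U (2 ^ y.1)) => z.1) h
      rw [Subtype.ext (Subtype.ext this)]
  · rintro ⟨w, hw⟩
    obtain ⟨h1, h2⟩ := mem_vs_dif.1 hw
    by_cases e : w = x.1
    · exact ⟨none, Subtype.ext e.symm⟩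
    · exact ⟨some ⟨⟨w, h1⟩, fun h => e (congrArg Subtype.val h),
        fun h => h2 (congrArg Subtype.val h)⟩, rfl⟩

/-- the contraction of a mask graph is a mask graph -/
noncomputable def crowIso {r : ℕ → ℕ} (h : Ok r) {U : ℕ} (x y : vs U) (hxy : x ≠ y)
    (hn : (r x.1).testBit y.1 = false) :
    contract ((gr r).induce (vs U)) x y ≃g
      (gr (crow r x.1 y.1)).induce (vs (dif U (2 ^ y.1))) where
  toEquiv := Equiv.ofBijective _ (cmap_bij x y hxy)
  map_rel_iff' := by
    have h' := crow_ok h x.2.1 y.2.1 hn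
    have key : ∀ b : {v : vs U // v ≠ x ∧ v ≠ y}, (gr (crow r x.1 y.1)).Adj x.1 b.1.1 ↔
        ((gr r).Adj x.1 b.1.1 ∨ (gr r).Adj y.1 b.1.1) := by
      intro b
      rw [gr_adj h' x.2.1 b.1.2.1, gr_adj h x.2.1 b.1.2.1, gr_adj h y.2.1 b.1.2.1, crow_self,
        Bool.or_eq_true]
    rintro (_ | a) (_ | b)
    · simp
    · rw [contract_none_some]
      exact key b
    · rw [contract_some_none, adj_comm]
      exact key a
    · rw [contract_some_some]
      change (gr (crow r x.1 y.1)).Adj a.1.1 b.1.1 ↔ (gr r).Adj a.1.1 b.1.1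
      have ha : a.1.1 ≠ x.1 := fun e => a.2.1 (Subtype.ext e)
      have hb : x.1 ≠ b.1.1 := fun e => b.2.1 (Subtype.ext e.symm)
      rw [gr_adj h' a.1.2.1 b.1.2.1, gr_adj h a.1.2.1 b.1.2.1, crow_ne _ _ _ _ _ ha]
      simp [hb]

/-- usable neighbours -/
def nbr (r : ℕ → ℕ) (U x y u : ℕ) : ℕ :=
  dif (dif (dif (r u &&& U) (r x &&& r y)) (if (r x).testBit u then r x else 0))
    (if (r y).testBit u then r y else 0)

/-- even pair check -/
def evenChk (r : ℕ → ℕ) (U x y P Q : ℕ) : Bool :=
  Nat.blt x 24 && Nat.blt y 24 && U.testBit x && U.testBit y && !(Nat.beq x y) &&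
  !(r x).testBit y && P.testBit x && !Q.testBit y &&
  allLt (fun u => (!P.testBit u || sub (nbr r U x y u) Q) &&
    (!Q.testBit u || sub (nbr r U x y u) P)) 24

theorem nbr_spec {r : ℕ → ℕ} (h : Ok r) {U : ℕ} (x y u v : vs U)
    (a : ((gr r).induce (vs U)).Adj u v)
    (c1 : ¬ (((gr r).induce (vs U)).Adj x v ∧ ((gr r).induce (vs U)).Adj y v))
    (c2 : ¬ (((gr r).induce (vs U)).Adj x u ∧ ((gr r).induce (vs U)).Adj x v))
    (c3 : ¬ (((gr r).induce (vs U)).Adj y u ∧ ((gr r).induce (vs U)).Adj y v)) :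
    (nbr r U x.1 y.1 u.1).testBit v.1 = true := by
  have g : ∀ a b : vs U, ((gr r).induce (vs U)).Adj a b ↔ (r a.1).testBit b.1 = true :=
    fun a b => gr_adj h a.2.1 b.2.1
  simp only [g] at a c1 c2 c3
  have hv := v.2.2
  simp only [nbr, dif_spec, Nat.testBit_and, a, hv]
  cases e1 : (r x.1).testBit v.1 <;> cases e2 : (r y.1).testBit v.1 <;>
    cases e3 : (r x.1).testBit u.1 <;> cases e4 : (r y.1).testBit u.1 <;>
    simp_all

/-- check of a contraction sequence -/
def ecChk : List ℕ → (ℕ → ℕ) → ℕ → Bool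
  | [], r, U => allLt (fun u => !U.testBit u || sub U (r u ||| 2 ^ u)) 24
  | c :: l, r, U => evenChk r U (c % 32) (c / 32 % 32) (c / 1024 % 16777216) (c / 17179869184) &&
      ecChk l (crow r (c % 32) (c / 32 % 32)) (dif U (2 ^ (c / 32 % 32)))

theorem ecChk_realize : True := by have := @ecChk.eq_def; trivial

theorem ecChk_sound (l : List ℕ) : ∀ (r : ℕ → ℕ) (U : ℕ), Ok r → ecChk l r U = true →
    Contractile (vs U) ((gr r).induce (vs U)) := by
  induction l with
  | nil =>
    intro r U h hc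
    refine Contractile.clique _ _ ?_
    ext a b
    simp only [top_adj]
    refine ⟨fun h => h.ne, fun hab => ?_⟩
    have := allLt_spec hc a.2.1
    simp only [a.2.2, Bool.not_true, Bool.false_or] at this
    have := sub_spec this b.2.2
    rw [Nat.testBit_or, Nat.testBit_two_pow, Bool.or_eq_true] at this
    rcases this with e | e
    · exact (gr_adj h a.2.1 b.2.1).2 e
    · exact absurd (Subtype.ext (of_decide_eq_true e)) hab
  | cons c l ih =>
    intro r U h hc
    simp only [ecChk, Bool.and_eq_true] at hc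
    obtain ⟨h1, h2⟩ := hc
    generalize c % 32 = x at h1 h2
    generalize c / 32 % 32 = y at h1 h2
    generalize c / 1024 % 16777216 = P at h1
    generalize c / 17179869184 = Q at h1
    simp only [evenChk, Bool.and_eq_true, Nat.blt_eq, Bool.not_eq_true'] at h1
    obtain ⟨⟨⟨⟨⟨⟨⟨⟨a1, a2⟩, a3⟩, a4⟩, a5⟩, a6⟩, a7⟩, a8⟩, a9⟩ := h1
    have hxy : (⟨x, a1, a3⟩ : vs U) ≠ ⟨y, a2, a4⟩ := by
      intro e
      have : x = y := congrArg Subtype.val e
      rw [this, Nat.beq_refl] at a5
      cases a5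
    refine Contractile.step _ _ ⟨x, a1, a3⟩ ⟨y, a2, a4⟩ ?_ ?_
    · refine evenPair_of_cert _ _ _ hxy ?_ (fun v => P.testBit v.1 = true)
        (fun v => Q.testBit v.1 = true) a7 (by simp [a8]) ?_ ?_
      · intro e
        have := (gr_adj h a1 a2).1 e
        rw [a6] at this
        cases this
      · intro u v hu a c1 c2 c3
        have := allLt_spec a9 u.2.1
        simp only [hu, Bool.not_true, Bool.false_or, Bool.and_eq_true] at this
        exact sub_spec this.1 (nbr_spec h _ _ u v a c1 c2 c3)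
      · intro u v hu a c1 c2 c3
        have := allLt_spec a9 u.2.1
        simp only [hu, Bool.not_true, Bool.false_or, Bool.and_eq_true] at this
        exact sub_spec this.2 (nbr_spec h _ _ u v a c1 c2 c3)
    · exact (ih _ _ (crow_ok h a1 a2 a6) h2).of_iso (crowIso h _ _ hxy a6).symm

/-- star cutset check -/
def starChk (r : ℕ → ℕ) (I O s u v C : ℕ) : Bool :=
  I.testBit s && I.testBit u && I.testBit v && !(Nat.beq u s) && !(Nat.beq v s) &&
  C.testBit u && !C.testBit v &&
  allLt (fun w => !C.testBit w ||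
    sub (r w &&& dif (dif 16777215 (r s ||| 2 ^ s) ||| 2 ^ u ||| 2 ^ v) O) C) 24

theorem starChk_sound {r : ℕ → ℕ} (h : Ok r) {I O s u v C : ℕ}
    (hc : starChk r I O s u v C = true) (S : Set ℕ) (hS : ∀ v ∈ S, v < 24)
    (hI : ∀ v, I.testBit v = true → v ∈ S) (hO : ∀ v, O.testBit v = true → v ∉ S) :
    HasStarCutset ((gr r).induce S) := by
  simp only [starChk, Bool.and_eq_true, Bool.not_eq_true'] at hc
  obtain ⟨⟨⟨⟨⟨⟨⟨a1, a2⟩, a3⟩, a4⟩, a5⟩, a6⟩, a7⟩, a8⟩ := hc
  refine star_of_cert _ ⟨s, hI s a1⟩ ⟨u, hI u a2⟩ ⟨v, hI v a3⟩ ?_ ?_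
    (fun w => C.testBit w.1 = true) a6 (by simp [a7]) ?_
  · intro e
    have : u = s := congrArg Subtype.val e
    rw [this, Nat.beq_refl] at a4
    cases a4
  · intro e
    have : v = s := congrArg Subtype.val e
    rw [this, Nat.beq_refl] at a5
    cases a5
  · intro a b ha hab hb
    have := allLt_spec a8 (hS _ a.2)
    simp only [ha, Bool.not_true, Bool.false_or] at this
    refine sub_spec this ?_
    have h1 : (r a.1).testBit b.1 = true := (gr_adj h (hS _ a.2) (hS _ b.2)).1 hab
    have h2 : O.testBit b.1 = false := by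
      cases e : O.testBit b.1
      · rfl
      · exact absurd b.2 (hO _ e)
    have h3 : (16777215 : ℕ).testBit b.1 = true := by
      have : (16777215 : ℕ) = 2 ^ 24 - 1 := by norm_num
      rw [this, Nat.testBit_two_pow_sub_one]
      exact decide_eq_true (hS _ b.2)
    simp only [Nat.testBit_and, dif_spec, Nat.testBit_or, Nat.testBit_two_pow, h1, h2, h3]
    rcases hb with e | e | ⟨e1, e2⟩
    · simp [e]
    · simp [e]
    · have h4 : (r s).testBit b.1 = false := by
        cases e : (r s).testBit b.1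
        · rfl
        · exact absurd ((gr_adj h (hS _ (hI s a1)) (hS _ b.2)).2 e) e2
      have h5 : s ≠ b.1 := fun e => e1 (Subtype.ext e.symm)
      simp [h4, h5]

/-- search trees -/
inductive Tr : Type
  | s : ℕ → Tr
  | e : List ℕ → Tr
  | n : ℕ → Tr → Tr → Tr

/-- check of a search tree -/
def chk (r : ℕ → ℕ) : Tr → ℕ → ℕ → Bool
  | .s c, I, O => starChk r I O (c % 32) (c / 32 % 32) (c / 1024 % 32) (c / 32768)
  | .e l, I, O => Nat.beq (I ||| O) 16777215 && ecChk l r I
  | .n v a b, I, O => chk r a (I ||| 2 ^ v) O && chk r b I (O ||| 2 ^ v)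

theorem chk_realize : True := by have := @chk.eq_def; trivial

theorem chk_sound {r : ℕ → ℕ} (h : Ok r) (S : Set ℕ) (hS : ∀ v ∈ S, v < 24) (t : Tr) :
    ∀ I O : ℕ, chk r t I O = true → (∀ v, I.testBit v = true → v ∈ S) →
      (∀ v, O.testBit v = true → v ∉ S) →
      HasStarCutset ((gr r).induce S) ∨ Contractile S ((gr r).induce S) := by
  induction t with
  | s c =>
    intro I O hc hI hO
    exact Or.inl (starChk_sound h hc S hS hI hO)
  | e l =>
    intro I O hc hI hO
    simp only [chk, Bool.and_eq_true] at hc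
    have e : S = vs I := by
      ext v
      refine ⟨fun hv => ⟨hS v hv, ?_⟩, fun hv => hI v hv.2⟩
      have h3 : (I ||| O).testBit v = true := by
        have : (16777215 : ℕ) = 2 ^ 24 - 1 := by norm_num
        rw [Nat.eq_of_beq_eq_true hc.1, this, Nat.testBit_two_pow_sub_one]
        exact decide_eq_true (hS _ hv)
      rw [Nat.testBit_or, Bool.or_eq_true] at h3
      exact h3.resolve_right (fun e => hO v e hv)
    subst e
    exact Or.inr (ecChk_sound l r I h hc.2)
  | n v a b iha ihb =>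
    intro I O hc hI hO
    simp only [chk, Bool.and_eq_true] at hc
    by_cases hv : v ∈ S
    · refine iha _ _ hc.1 ?_ hO
      intro w hw
      rw [Nat.testBit_or, Bool.or_eq_true, Nat.testBit_two_pow] at hw
      rcases hw with e | e
      · exact hI w e
      · rwa [← of_decide_eq_true e]
    · refine ihb _ _ hc.2 hI ?_
      intro w hw
      rw [Nat.testBit_or, Bool.or_eq_true, Nat.testBit_two_pow] at hw
      rcases hw with e | e
      · exact hO w e
      · rwa [← of_decide_eq_true e]

/-- digits in base 24 -/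
def dg (c i : ℕ) : ℕ := c / 24 ^ (i + 1) % 24

theorem dg_lt (c i : ℕ) : dg c i < 24 := Nat.mod_lt _ (by norm_num)

/-- check of an odd chordless path -/
def oddChk (r : ℕ → ℕ) (x y c : ℕ) : Bool :=
  Nat.beq (c % 24 % 2) 1 && Nat.beq (dg c 0) x && Nat.beq (dg c (c % 24)) y &&
  allLt (fun i => (r (dg c i)).testBit (dg c (i + 1))) (c % 24) &&
  allLt (fun j => allLt (fun i => !(Nat.beq (dg c i) (dg c j)) &&
    !(r (dg c i)).testBit (dg c j)) (j - 1)) (c % 24 + 1)

theorem oddChk_sound {r : ℕ → ℕ} (h : Ok r) (x y : {v : ℕ | v < 24}) {c : ℕ}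
    (hc : oddChk r x.1 y.1 c = true) : ¬ EvenPair ((gr r).induce {v : ℕ | v < 24}) x y := by
  simp only [oddChk, Bool.and_eq_true] at hc
  obtain ⟨⟨⟨⟨a1, a2⟩, a3⟩, a4⟩, a5⟩ := hc
  have := not_evenPair ((gr r).induce {v : ℕ | v < 24}) (fun i => ⟨dg c i, dg_lt c i⟩) (c % 24)
    (by rw [Nat.not_even_iff]; exact Nat.eq_of_beq_eq_true a1)
    (fun i hi => (gr_adj h (dg_lt _ _) (dg_lt _ _)).2 (allLt_spec a4 hi))
    (by
      intro i j hij hj
      have := allLt_spec (allLt_spec a5 (Nat.lt_succ_of_le hj)) (show i < j - 1 by omega)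
      simp only [Bool.and_eq_true, Bool.not_eq_true'] at this
      constructor
      · intro e
        have e' : dg c i = dg c j := congrArg Subtype.val e
        rw [e', Nat.beq_refl] at this
        cases this.1
      · intro e
        have e' := (gr_adj h (dg_lt _ _) (dg_lt _ _)).1 e
        rw [this.2] at e'
        cases e')
  have e1 : (⟨dg c 0, dg_lt c 0⟩ : {v : ℕ | v < 24}) = x :=
    Subtype.ext (Nat.eq_of_beq_eq_true a2)
  have e2 : (⟨dg c (c % 24), dg_lt c _⟩ : {v : ℕ | v < 24}) = y :=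
    Subtype.ext (Nat.eq_of_beq_eq_true a3)
  simp only [e1, e2] at this
  exact this

/-- symmetric rows check -/
def okChk (r : ℕ → ℕ) : Bool :=
  allLt (fun u => !(r u).testBit u && allLt (fun v => (r u).testBit v == (r v).testBit u) 24) 24

theorem okChk_sound {r : ℕ → ℕ} (h : okChk r = true) : Ok r := by
  constructor
  · intro u hu
    have := allLt_spec h hu
    simp only [Bool.and_eq_true, Bool.not_eq_true'] at this
    exact this.1
  · intro u v hu hv
    have := allLt_spec h hu
    simp only [Bool.and_eq_true] at this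
    simpa using allLt_spec this.2 hv

/-- no even pair check -/
def noEvenChk (r : ℕ → ℕ) (tab : ℕ) : Bool :=
  allLt (fun x => allLt (fun y => Nat.beq x y || (r x).testBit y ||
    oddChk r x y ((tab >>> (42 * (24 * x + y))) % 4398046511104)) 24) 24

theorem final {r : ℕ → ℕ} (h0 : okChk r = true) (h1 : (r 0).testBit 2 = false) {tab : ℕ}
    (h2 : noEvenChk r tab = true) {t : Tr} (h3 : chk r t 0 0 = true) :
    ∃ (W : Type) (_ : Finite W) (H : SimpleGraph W), ¬ PerfectlyContractile H ∧
      (∀ S : Set W, S ≠ Set.univ → PerfectlyContractile (H.induce S)) ∧ HasStarCutset H := by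
  have h := okChk_sound h0
  refine exists_minimal (gr r) {v : ℕ | v < 24} (Set.finite_lt_nat 24) ?_ ?_
  · intro hc
    rcases hc.inv with e | ⟨x, y, e⟩
    · have : ((gr r).induce {v : ℕ | v < 24}).Adj ⟨0, by simp⟩ ⟨2, by simp⟩ := by
        rw [e]
        simp
      have := (gr_adj h (u := 0) (v := 2) (by norm_num) (by norm_num)).1 this
      rw [h1] at this
      cases this
    · have := allLt_spec (allLt_spec h2 x.2) y.2
      simp only [Bool.or_eq_true] at this
      rcases this with (a | a) | a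
      · exact e.1 (Subtype.ext (Nat.eq_of_beq_eq_true a))
      · exact e.2.1 ((gr_adj h x.2 y.2).2 a)
      · exact oddChk_sound h x y a e
  · intro S hS
    exact chk_sound h S hS t 0 0 h3 (by simp) (by simp)

end Pool.Agent.P.MP_944056_co
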