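import Mathlib

namespace Pool.Agent.P.MP_944056_co

/-- `x, y` are distinct, non-adjacent, and every chordless path from `x` to `y` has an even
number of edges. -/
def EvenPair {V : Type} (G : SimpleGraph V) (x y : V) : Prop :=
  x ≠ y ∧ ¬ G.Adj x y ∧
    ∀ p : G.Walk x y, p.IsPath →
      (∀ i j : ℕ, i + 1 < j → j ≤ p.length → ¬ G.Adj (p.getVert i) (p.getVert j)) →
      Even p.length

/-- Delete `x` and `y` and add one new vertex `none` adjacent to the neighbours of `x` or `y`. -/
def contract {V : Type} (G : SimpleGraph V) (x y : V) :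
    SimpleGraph (Option {v : V // v ≠ x ∧ v ≠ y}) :=
  SimpleGraph.fromRel fun a b =>
    (∃ u v : {v : V // v ≠ x ∧ v ≠ y}, a = some u ∧ b = some v ∧ G.Adj u.1 v.1) ∨
    (∃ v : {v : V // v ≠ x ∧ v ≠ y}, a = none ∧ b = some v ∧ (G.Adj x v.1 ∨ G.Adj y v.1))

/-- The graph can be turned into a clique by finitely many even pair contractions. -/
inductive Contractile : (V : Type) → SimpleGraph V → Prop
  | clique (V : Type) (G : SimpleGraph V) : G = ⊤ → Contractile V G
  | step (V : Type) (G : SimpleGraph V) (x y : V) :
      EvenPair G x y → Contractile _ (contract G x y) → Contractile V G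

/-- Every induced subgraph can be turned into a clique by even pair contractions. -/
def PerfectlyContractile {V : Type} (G : SimpleGraph V) : Prop :=
  ∀ S : Set V, Contractile S (G.induce S)

/-- Some set `S` with a vertex adjacent to all its other vertices has `G - S` disconnected. -/
def HasStarCutset {V : Type} (G : SimpleGraph V) : Prop :=
  ∃ S : Set V, ¬ (G.induce {v | v ∉ S}).Preconnected ∧ ∃ c ∈ S, ∀ v ∈ S, v ≠ c → G.Adj c v

end Pool.Agent.P.MP_944056_co
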